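import Mathlib

/-!
Heights of the maximal ideals of a finitely generated domain over a field.
-/

namespace Pool.Agent.TH508.NS

open MvPolynomial

theorem height_maximal {K : Type} [Field K] : ∀ (s : ℕ) (M : Ideal (MvPolynomial (Fin s) K))
    [M.IsMaximal], (s : ℕ∞) ≤ M.height := by
  intro s
  induction s with
  | zero => intro M _; simp
  | succ s ih =>
    intro M hM
    let e : MvPolynomial (Fin (s + 1)) K ≃+* Polynomial (MvPolynomial (Fin s) K) :=
      (finSuccEquiv K s).toRingEquiv
    let M' : Ideal (Polynomial (MvPolynomial (Fin s) K)) := M.map (e : _ →+* _)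
    have hM' : M'.IsMaximal := Ideal.map_isMaximal_of_equiv e
    have hp : (M'.under (MvPolynomial (Fin s) K)).IsMaximal :=
      _root_.Polynomial.isMaximal_comap_C_of_isJacobsonRing M'
    have h1 : M'.height = (M'.under (MvPolynomial (Fin s) K)).height + 1 :=
      Polynomial.height_eq_height_add_one (M'.under (MvPolynomial (Fin s) K)) M'
    have h2 : M'.height = M.height := e.height_map M
    rw [← h2, h1]
    push_cast
    exact add_le_add_left (ih _) 1

theorem height_ge {K R : Type} [Field K] [CommRing R] [IsDomain R] [Algebra K R]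
    [Algebra.FiniteType K R] {s : ℕ} (g : MvPolynomial (Fin s) K →ₐ[K] R)
    (hg : Function.Injective g) (hi : g.IsIntegral) (m : Ideal R) [m.IsMaximal] :
    (s : ℕ∞) ≤ m.height := by
  let _ : Algebra (MvPolynomial (Fin s) K) R := g.toRingHom.toAlgebra
  have : Algebra.IsIntegral (MvPolynomial (Fin s) K) R := ⟨hi⟩
  have : FaithfulSMul (MvPolynomial (Fin s) K) R :=
    (faithfulSMul_iff_algebraMap_injective _ _).2 hg
  have : IsNoetherianRing R := Algebra.FiniteType.isNoetherianRing K R
  have h1 := Ideal.height_eq_height_add_of_liesOver_of_hasGoingDown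
    (m.under (MvPolynomial (Fin s) K)) m
  have : (m.under (MvPolynomial (Fin s) K)).IsMaximal := inferInstance
  rw [h1]
  exact le_add_right (height_maximal s _)

end Pool.Agent.TH508.NS
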