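import Pool.Agent.W607.Defs

/-!
Growth of the Hilbert function forces at least three variables in a Noether normalisation.
-/

set_option autoImplicit false

namespace Pool.Agent.TH508.NS

open Filter Topology MvPolynomial Pool.Agent.W607

namespace Growth

/-- number of monomials of degree at most `d` in `s` variables -/
theorem finrank_rtd_le (s d : ℕ) :
    Module.finrank ℂ (restrictTotalDegree (Fin s) ℂ d) ≤ (d + 1) ^ s := by
  have h1 := Module.finrank_eq_nat_card_basis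
    (basisRestrictSupport ℂ {n : Fin s →₀ ℕ | n.degree ≤ d})
  have h2 : Module.finrank ℂ (restrictTotalDegree (Fin s) ℂ d) =
      Nat.card {n : Fin s →₀ ℕ | n.degree ≤ d} := h1
  rw [h2]
  have h3 : (d + 1) ^ s = Nat.card (Fin s → Fin (d + 1)) := by simp
  rw [h3]
  refine Nat.card_le_card_of_injective
    (fun n i => ⟨n.1 i, Nat.lt_succ_of_le ((Finsupp.le_degree i n.1).trans n.2)⟩) ?_
  intro a b hab
  apply Subtype.ext
  ext i
  have := congrFun hab i
  simpa using this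

variable {N : ℕ} (I : Ideal (MvPolynomial (Fin (N + 1)) ℂ))

/-- image of the polynomials of degree at most `t` -/
noncomputable def VV (t : ℕ) : Submodule ℂ (MvPolynomial (Fin (N + 1)) ℂ ⧸ I) :=
  (restrictTotalDegree (Fin (N + 1)) ℂ t).map (Ideal.Quotient.mkₐ ℂ I).toLinearMap

/-- image of the forms of degree `t` -/
noncomputable def HH (t : ℕ) : Submodule ℂ (MvPolynomial (Fin (N + 1)) ℂ ⧸ I) :=
  (homogeneousSubmodule (Fin (N + 1)) ℂ t).map (Ideal.Quotient.mkₐ ℂ I).toLinearMap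

instance (t : ℕ) : Module.Finite ℂ (VV I t) := by
  unfold VV; infer_instance

theorem HH_le (t : ℕ) : HH I t ≤ VV I t := by
  refine Submodule.map_mono ?_
  intro f hf
  rw [mem_restrictTotalDegree]
  exact ((mem_homogeneousSubmodule t f).1 hf).totalDegree_le

theorem VV_mono {a b : ℕ} (h : a ≤ b) : VV I a ≤ VV I b := by
  refine Submodule.map_mono ?_
  intro f hf
  rw [mem_restrictTotalDegree] at hf ⊢
  exact hf.trans h

theorem disj (hIh : Hmg I) (t : ℕ) : VV I t ⊓ HH I (t + 1) = ⊥ := by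
  rw [eq_bot_iff]
  rintro x ⟨⟨f, hf, rfl⟩, ⟨h, hh, hx⟩⟩
  have hf' := (mem_restrictTotalDegree (Fin (N + 1)) t f).1 hf
  have hh' := (mem_homogeneousSubmodule (t + 1) h).1 hh
  have e1 : h - f ∈ I := by
    rw [← Ideal.Quotient.eq]
    exact hx
  have e2 := hIh _ e1 (t + 1)
  rw [map_sub, homogeneousComponent_of_mem hh, if_pos rfl,
    homogeneousComponent_eq_zero _ _ (by omega), sub_zero] at e2
  rw [Submodule.mem_bot, ← hx]
  exact Ideal.Quotient.eq_zero_iff_mem.2 e2

theorem sum_le (hIh : Hmg I) (t : ℕ) :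
    ∑ j ∈ Finset.range (t + 1), hilb I j ≤ Module.finrank ℂ (VV I t) := by
  induction t with
  | zero =>
    rw [Finset.sum_range_one]
    exact Submodule.finrank_mono (HH_le I 0)
  | succ t ih =>
    rw [Finset.sum_range_succ]
    have h1 := Submodule.finrank_mono (sup_le (VV_mono I (Nat.le_add_right t 1)) (HH_le I (t + 1)))
    have : Module.Finite ℂ (HH I (t + 1)) :=
      Submodule.finiteDimensional_of_le (HH_le I (t + 1))
    have h2 := Submodule.finrank_sup_add_finrank_inf_eq (VV I t) (HH I (t + 1))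
    rw [disj I hIh t, finrank_bot, add_zero] at h2
    have h3 : hilb I (t + 1) = Module.finrank ℂ (HH I (t + 1)) := rfl
    omega

section upper

variable {s q : ℕ} {R : Type} [CommRing R] [Algebra ℂ R]
variable (g : MvPolynomial (Fin s) ℂ →ₐ[ℂ] R) (e : Fin q → R)

/-- combinations with coefficients of bounded degree -/
noncomputable def lin (d : ℕ) : (Fin q → restrictTotalDegree (Fin s) ℂ d) →ₗ[ℂ] R :=
  ∑ k, (LinearMap.mulRight ℂ (e k)) ∘ₗ g.toLinearMap ∘ₗ
    (restrictTotalDegree (Fin s) ℂ d).subtype ∘ₗ LinearMap.proj k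

theorem lin_apply (d : ℕ) (p : Fin q → restrictTotalDegree (Fin s) ℂ d) :
    lin g e d p = ∑ k, g (p k : MvPolynomial (Fin s) ℂ) * e k := by
  simp [lin]

/-- the range -/
noncomputable def WW (d : ℕ) : Submodule ℂ R := LinearMap.range (lin g e d)

theorem mem_WW (d : ℕ) (r : R) : r ∈ WW g e d ↔
    ∃ p : Fin q → MvPolynomial (Fin s) ℂ, (∀ k, (p k).totalDegree ≤ d) ∧
      r = ∑ k, g (p k) * e k := by
  constructor
  · rintro ⟨p, rfl⟩
    exact ⟨fun k => p k, fun k => (mem_restrictTotalDegree _ _ _).1 (p k).2, lin_apply g e d p⟩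
  · rintro ⟨p, hp, rfl⟩
    exact ⟨fun k => ⟨p k, (mem_restrictTotalDegree _ _ _).2 (hp k)⟩, lin_apply g e d _⟩

theorem WW_mono {a b : ℕ} (h : a ≤ b) : WW g e a ≤ WW g e b := by
  intro r hr
  rw [mem_WW] at hr ⊢
  obtain ⟨p, hp, rfl⟩ := hr
  exact ⟨p, fun k => (hp k).trans h, rfl⟩

theorem finrank_WW (d : ℕ) : Module.finrank ℂ (WW g e d) ≤ q * (d + 1) ^ s := by
  have h1 := LinearMap.finrank_range_le (lin g e d)
  rw [Module.finrank_pi_fintype] at h1
  simp only [Finset.sum_const, Finset.card_univ, Fintype.card_fin, smul_eq_mul] at h1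
  exact h1.trans (Nat.mul_le_mul_left _ (finrank_rtd_le s d))

instance (d : ℕ) : Module.Finite ℂ (WW g e d) := by
  unfold WW; infer_instance

/-- multiplication by `x` raises the degree by at most `D` -/
theorem mul_mem {x : R} {D : ℕ} (b : Fin q → Fin q → MvPolynomial (Fin s) ℂ)
    (hb : ∀ k i, (b k i).totalDegree ≤ D) (hx : ∀ k, x * e k = ∑ i, g (b k i) * e i)
    {d : ℕ} {r : R} (hr : r ∈ WW g e d) : x * r ∈ WW g e (d + D) := by
  rw [mem_WW] at hr ⊢
  obtain ⟨p, hp, rfl⟩ := hr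
  refine ⟨fun i => ∑ k, p k * b k i, fun i => ?_, ?_⟩
  · refine (totalDegree_finsetSum_le fun k _ => ?_)
    exact (totalDegree_mul _ _).trans (add_le_add (hp k) (hb k i))
  · rw [Finset.mul_sum]
    have e1 : ∀ k, x * (g (p k) * e k) = ∑ i, g (p k) * (g (b k i) * e i) := by
      intro k
      rw [← Finset.mul_sum, ← hx k]
      ring
    simp only [e1, map_sum, map_mul, Finset.sum_mul]
    rw [Finset.sum_comm]
    refine Finset.sum_congr rfl fun i _ => Finset.sum_congr rfl fun k _ => ?_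
    ring

theorem pow_mul_mem {x : R} {D : ℕ}
    (hx : ∀ (d : ℕ) (r : R), r ∈ WW g e d → x * r ∈ WW g e (d + D))
    (n : ℕ) {d : ℕ} {r : R} (hr : r ∈ WW g e d) : x ^ n * r ∈ WW g e (d + n * D) := by
  induction n with
  | zero => simpa using hr
  | succ n ih =>
    have := hx _ _ ih
    rw [pow_succ', mul_assoc]
    have e1 : d + (n + 1) * D = d + n * D + D := by ring
    rw [e1]
    exact this

end upper

/-- generators over the polynomial ring -/
theorem exists_gens {s : ℕ} {R : Type} [CommRing R] [Algebra ℂ R]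
    (g : MvPolynomial (Fin s) ℂ →ₐ[ℂ] R) (hg : g.toRingHom.Finite) :
    ∃ (q : ℕ) (e : Fin q → R), ∀ r, ∃ p : Fin q → MvPolynomial (Fin s) ℂ,
      r = ∑ k, g (p k) * e k := by
  let _ : Algebra (MvPolynomial (Fin s) ℂ) R := g.toRingHom.toAlgebra
  have _ : Module.Finite (MvPolynomial (Fin s) ℂ) R := hg
  obtain ⟨q, e, he⟩ := Module.Finite.exists_fin (R := MvPolynomial (Fin s) ℂ) (M := R)
  refine ⟨q, e, fun r => ?_⟩
  have h1 : r ∈ Submodule.span (MvPolynomial (Fin s) ℂ) (Set.range e) := by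
    rw [he]; trivial
  obtain ⟨p, hp⟩ := (Submodule.mem_span_range_iff_exists_fun _).1 h1
  refine ⟨p, ?_⟩
  rw [← hp]
  refine Finset.sum_congr rfl fun k _ => ?_
  rw [Algebra.smul_def]
  rfl

end Growth

open Growth

theorem three_le_of_growth {N : ℕ} {I : Ideal (MvPolynomial (Fin (N + 1)) ℂ)} (hI : I.IsPrime)
    (hIh : Hmg I) {δ : ℝ} (hδ : 0 < δ)
    (hgr : Tendsto (fun t : ℕ => 2 * (hilb I t : ℝ) / (t : ℝ) ^ 2) atTop (𝓝 δ)) {s : ℕ}
    (g : MvPolynomial (Fin s) ℂ →ₐ[ℂ] MvPolynomial (Fin (N + 1)) ℂ ⧸ I)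
    (hg : g.toRingHom.Finite) : 3 ≤ s := by
  classical
  by_contra hs
  push Not at hs
  -- generators
  obtain ⟨q, e, he⟩ := exists_gens g hg
  choose P hP using he
  let xj : Fin (N + 1) → MvPolynomial (Fin (N + 1)) ℂ ⧸ I := fun j => Ideal.Quotient.mkₐ ℂ I (X j)
  let b : Fin (N + 1) → Fin q → Fin q → MvPolynomial (Fin s) ℂ := fun j k => P (xj j * e k)
  obtain ⟨D, hD1, hDb⟩ : ∃ D : ℕ, (∀ i, (P 1 i).totalDegree ≤ D) ∧
      ∀ j k i, (b j k i).totalDegree ≤ D := by
    refine ⟨∑ i, (P 1 i).totalDegree + ∑ j, ∑ k, ∑ i, (b j k i).totalDegree, fun i => ?_,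
      fun j k i => ?_⟩
    · have := Finset.single_le_sum (f := fun i => (P 1 i).totalDegree) (fun _ _ => Nat.zero_le _)
        (Finset.mem_univ i)
      omega
    · have h1 := Finset.single_le_sum (f := fun i => (b j k i).totalDegree)
        (fun _ _ => Nat.zero_le _) (Finset.mem_univ i)
      have h2 := Finset.single_le_sum (f := fun k => ∑ i, (b j k i).totalDegree)
        (fun _ _ => Nat.zero_le _) (Finset.mem_univ k)
      have h3 := Finset.single_le_sum (f := fun j => ∑ k, ∑ i, (b j k i).totalDegree)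
        (fun _ _ => Nat.zero_le _) (Finset.mem_univ j)
      omega
  have hone : (1 : MvPolynomial (Fin (N + 1)) ℂ ⧸ I) ∈ WW g e D := by
    rw [mem_WW]
    exact ⟨P 1, hD1, hP 1⟩
  have hmul : ∀ j (d : ℕ) (r : MvPolynomial (Fin (N + 1)) ℂ ⧸ I), r ∈ WW g e d →
      xj j * r ∈ WW g e (d + D) := fun j d r hr =>
    mul_mem g e (b j) (hDb j) (fun k => hP _) hr
  have hprod : ∀ (m : Fin (N + 1) → ℕ) (S : Finset (Fin (N + 1))),
      ∏ j ∈ S, xj j ^ m j ∈ WW g e (D + (∑ j ∈ S, m j) * D) := by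
    intro m S
    induction S using Finset.induction_on with
    | empty => simpa using hone
    | insert a S ha ih =>
      rw [Finset.prod_insert ha, Finset.sum_insert ha]
      have := pow_mul_mem g e (hmul a) (m a) ih
      have e1 : D + (m a + ∑ j ∈ S, m j) * D = D + (∑ j ∈ S, m j) * D + m a * D := by ring
      rw [e1]
      exact this
  have hVW : ∀ t, VV I t ≤ WW g e (D * (t + 1)) := by
    rintro t _ ⟨f, hf, rfl⟩
    have hf' := (mem_restrictTotalDegree (Fin (N + 1)) t f).1 hf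
    rw [f.as_sum, map_sum]
    refine Submodule.sum_mem _ fun m hm => ?_
    have e1 : (monomial m) (f.coeff m) = (f.coeff m) • ∏ j, X j ^ m j := by
      rw [monomial_eq, Finsupp.prod_fintype _ _ (by simp), smul_eq_C_mul]
    rw [e1, map_smul]
    refine Submodule.smul_mem _ _ ?_
    have e2 : (Ideal.Quotient.mkₐ ℂ I).toLinearMap (∏ j, X j ^ m j) = ∏ j, xj j ^ m j := by
      simp [xj, map_prod]
    rw [e2]
    have e3 : ∑ j, m j ≤ t := by
      have h1 := le_totalDegree hm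
      have h2 : (m.sum fun _ e => e) = ∑ j, m j := by
        rw [Finsupp.sum_fintype _ _ (by simp)]
      omega
    refine WW_mono g e ?_ (hprod m Finset.univ)
    have h4 : (∑ j, m j) * D ≤ t * D := Nat.mul_le_mul_right _ e3
    calc D + (∑ j, m j) * D ≤ D + t * D := by omega
      _ = D * (t + 1) := by ring
  have hup : ∀ t, ∑ j ∈ Finset.range (t + 1), hilb I j ≤ q * (D * (t + 1) + 1) ^ 2 := by
    intro t
    have h1 := (sum_le I hIh t).trans ((Submodule.finrank_mono (hVW t)).trans (finrank_WW g e _))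
    refine h1.trans (Nat.mul_le_mul_left _ ?_)
    exact Nat.pow_le_pow_right (by omega) (by omega)
  -- lower bound
  have hlow : ∀ᶠ t : ℕ in atTop, δ / 4 * (t : ℝ) ^ 2 ≤ hilb I t := by
    filter_upwards [hgr.eventually (lt_mem_nhds (half_lt_self hδ)), eventually_gt_atTop 0]
      with t ht ht0
    have h1 : (0 : ℝ) < (t : ℝ) ^ 2 := by positivity
    rw [lt_div_iff₀ h1] at ht
    linarith
  obtain ⟨T0, hT0⟩ := eventually_atTop.1 hlow
  obtain ⟨T1, hT1⟩ := exists_nat_gt (64 * (q : ℝ) * ((D : ℝ) + 1) ^ 2 / δ)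
  set T := max T1 (T0 + 1) with hT
  have hTa : T0 ≤ T := by omega
  have hTb : 1 ≤ T := by omega
  have hTc : 64 * (q : ℝ) * ((D : ℝ) + 1) ^ 2 / δ < T := by
    refine hT1.trans_le ?_
    exact_mod_cast le_max_left _ _
  have h1 := hup (2 * T)
  have h2 : ∑ j ∈ Finset.Ico T (2 * T), hilb I j ≤ ∑ j ∈ Finset.range (2 * T + 1), hilb I j := by
    refine Finset.sum_le_sum_of_subset fun j hj => ?_
    rw [Finset.mem_Ico] at hj
    rw [Finset.mem_range]
    omega
  have h3 : (T : ℝ) * (δ / 4 * (T : ℝ) ^ 2) ≤ ((∑ j ∈ Finset.Ico T (2 * T), hilb I j : ℕ) : ℝ) := by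
    push_cast
    have h4 : ∀ j ∈ Finset.Ico T (2 * T), δ / 4 * (T : ℝ) ^ 2 ≤ (hilb I j : ℝ) := by
      intro j hj
      rw [Finset.mem_Ico] at hj
      refine le_trans ?_ (hT0 j (by omega))
      have h5 : (T : ℝ) ≤ j := by exact_mod_cast hj.1
      have h6 : (T : ℝ) ^ 2 ≤ (j : ℝ) ^ 2 := pow_le_pow_left₀ (by positivity) h5 2
      exact mul_le_mul_of_nonneg_left h6 (by positivity)
    have h5 := Finset.card_nsmul_le_sum _ _ _ h4
    rw [Nat.card_Ico, nsmul_eq_mul] at h5
    have h6 : 2 * T - T = T := by omega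
    rw [h6] at h5
    exact h5
  have h4 : ((∑ j ∈ Finset.Ico T (2 * T), hilb I j : ℕ) : ℝ) ≤
      q * (D * (2 * T + 1) + 1) ^ 2 := by
    have := h2.trans h1
    exact_mod_cast this
  have hTr : (1 : ℝ) ≤ T := by exact_mod_cast hTb
  have hD0 : (0 : ℝ) ≤ D := by positivity
  have h5 : (D : ℝ) * (2 * T + 1) + 1 ≤ 4 * ((D : ℝ) + 1) * T := by nlinarith
  have h6 : ((D : ℝ) * (2 * T + 1) + 1) ^ 2 ≤ (4 * ((D : ℝ) + 1) * T) ^ 2 :=
    pow_le_pow_left₀ (by positivity) h5 2
  have h7 : (q : ℝ) * (D * (2 * T + 1) + 1) ^ 2 ≤ q * (4 * ((D : ℝ) + 1) * T) ^ 2 :=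
    mul_le_mul_of_nonneg_left h6 (by positivity)
  rw [div_lt_iff₀ hδ] at hTc
  have h8 : (0 : ℝ) < (T : ℝ) ^ 2 := by positivity
  have h9 : 64 * (q : ℝ) * ((D : ℝ) + 1) ^ 2 * (T : ℝ) ^ 2 < T * δ * (T : ℝ) ^ 2 :=
    mul_lt_mul_of_pos_right hTc h8
  nlinarith [h3, h4, h7, h9]

end Pool.Agent.TH508.NS
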