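import Pool.Agent.TH508.NB.Morse

/-!
A Noetherian local ring of dimension two with a two-generated maximal ideal embeds in `F[[u,v]]`.
-/

namespace Pool.Agent.TH508.NS

open Pool.Agent.TH508.NB MvPowerSeries IsLocalRing

theorem mem_pair_pow {B : Type*} [CommRing B] {α β : B} : ∀ (s : ℕ) {b : B},
    b ∈ (Ideal.span {α, β}) ^ s → ∃ c : ℕ → B,
      b = ∑ i ∈ Finset.range (s + 1), c i * (α ^ i * β ^ (s - i)) := by
  intro s
  induction s with
  | zero =>
    intro b _
    exact ⟨fun _ => b, by simp⟩
  | succ s ih =>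
    intro b hb
    rw [pow_succ] at hb
    refine Submodule.mul_induction_on hb ?_ ?_
    · intro p hp q hq
      obtain ⟨c, rfl⟩ := ih hp
      obtain ⟨d, e, rfl⟩ := Ideal.mem_span_pair.1 hq
      refine ⟨fun i => (if i = 0 then 0 else c (i - 1) * d) + (if i ≤ s then c i * e else 0), ?_⟩
      have h1 : ∑ i ∈ Finset.range (s + 1 + 1), ((if i = 0 then 0 else c (i - 1) * d) +
          (if i ≤ s then c i * e else 0)) * (α ^ i * β ^ (s + 1 - i)) =
          ∑ i ∈ Finset.range (s + 1 + 1), (if i = 0 then 0 else c (i - 1) * d) *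
            (α ^ i * β ^ (s + 1 - i)) +
          ∑ i ∈ Finset.range (s + 1 + 1), (if i ≤ s then c i * e else 0) *
            (α ^ i * β ^ (s + 1 - i)) := by
        rw [← Finset.sum_add_distrib]
        exact Finset.sum_congr rfl fun i _ => by ring
      rw [h1, Finset.sum_range_succ' _ (s + 1), Finset.sum_range_succ _ (s + 1), if_pos rfl,
        if_neg (by omega), zero_mul, zero_mul, add_zero, add_zero, ← Finset.sum_add_distrib,
        Finset.sum_mul]
      refine Finset.sum_congr rfl fun i hi => ?_
      have hi := Finset.mem_range.1 hi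
      rw [if_neg (by omega), if_pos (by omega), Nat.add_sub_cancel,
        show s + 1 - (i + 1) = s - i by omega, show s + 1 - i = (s - i) + 1 by omega]
      ring
    · rintro _ _ ⟨c, rfl⟩ ⟨d, rfl⟩
      refine ⟨fun i => c i + d i, ?_⟩
      rw [← Finset.sum_add_distrib]
      exact Finset.sum_congr rfl fun i _ => by ring

theorem O.sum {F : Type*} [Field F] {ι : Type*} {n : ℕ} (s : Finset ι)
    {f : ι → MvPowerSeries (Fin 2) F} (h : ∀ i ∈ s, O n (f i)) : O n (∑ i ∈ s, f i) := by
  intro d hd
  rw [map_sum]
  exact Finset.sum_eq_zero fun i hi => h i hi d hd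

theorem O_pow_sub {F : Type*} [Field F] {a b : MvPowerSeries (Fin 2) F} (ha : O 1 a) (hb : O 1 b)
    (h : O 2 (a - b)) : ∀ n : ℕ, O n (a ^ n) ∧ O n (b ^ n) ∧ O (n + 1) (a ^ n - b ^ n) := by
  intro n
  induction n with
  | zero =>
    refine ⟨O_zero _, O_zero _, ?_⟩
    rw [pow_zero, pow_zero, sub_self]
    intro d _
    rw [map_zero]
  | succ n ih =>
    obtain ⟨h1, h2, h3⟩ := ih
    refine ⟨?_, ?_, ?_⟩
    · rw [pow_succ]
      exact h1.mul ha
    · rw [pow_succ]
      exact h2.mul hb
    · have e : a ^ (n + 1) - b ^ (n + 1) = (a ^ n - b ^ n) * a + b ^ n * (a - b) := by ring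
      rw [e]
      exact (h3.mul ha).add ((h2.mul h).mono (by omega))

theorem injective_of_param {F : Type*} [Field F] {B : Type*} [CommRing B] [IsLocalRing B]
    [IsNoetherianRing B] [Algebra F B]
    (hres : ∀ b : B, ∃ c : F, b - algebraMap F B c ∈ maximalIdeal B) {α β : B}
    (hm : maximalIdeal B = Ideal.span {α, β}) (φ : B →ₐ[F] MvPowerSeries (Fin 2) F)
    (hα : O 2 (φ α - X 0)) (hβ : O 2 (φ β - X 1)) : Function.Injective φ := by
  classical
  have hα1 : O 1 (φ α) := by
    have := (hα.mono (show 1 ≤ 2 by omega)).add (O_X 0)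
    rwa [sub_add_cancel] at this
  have hβ1 : O 1 (φ β) := by
    have := (hβ.mono (show 1 ≤ 2 by omega)).add (O_X 1)
    rwa [sub_add_cancel] at this
  have hm1 : ∀ b ∈ maximalIdeal B, O 1 (φ b) := by
    intro b hb
    rw [hm] at hb
    obtain ⟨c, d, rfl⟩ := Ideal.mem_span_pair.1 hb
    rw [map_add, map_mul, map_mul]
    exact (O.mul_left hα1).add (O.mul_left hβ1)
  have hcm : ∀ b : B, coeff 0 (φ b) = 0 → b ∈ maximalIdeal B := by
    intro b hb
    obtain ⟨c, hc⟩ := hres b
    have h1 := hm1 _ hc 0 (by simp)
    rw [map_sub, AlgHom.commutes, map_sub, hb, zero_sub, neg_eq_zero, MvPowerSeries.algebraMap_apply,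
      MvPowerSeries.coeff_zero_C] at h1
    have h2 : c = 0 := h1
    rw [h2, map_zero, sub_zero] at hc
    exact hc
  have hmon : ∀ (j s : ℕ), (X 0 ^ j * X 1 ^ (s - j) : MvPowerSeries (Fin 2) F) =
      monomial (Finsupp.single 0 j + Finsupp.single 1 (s - j)) 1 := by
    intro j s
    rw [X_pow_eq, X_pow_eq, monomial_mul_monomial, one_mul]
  rw [injective_iff_map_eq_zero]
  intro b hb
  have key : ∀ s : ℕ, b ∈ maximalIdeal B ^ s := by
    intro s
    induction s with
    | zero => simp
    | succ s ih =>
      rw [hm] at ih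
      obtain ⟨c, hc⟩ := mem_pair_pow s ih
      have h1 : ∀ i ≤ s, c i ∈ maximalIdeal B := by
        intro i hi
        refine hcm _ ?_
        have h2 : O (s + 1) (φ b - ∑ i ∈ Finset.range (s + 1),
            φ (c i) * (X 0 ^ i * X 1 ^ (s - i))) := by
          rw [hc, map_sum, ← Finset.sum_sub_distrib]
          refine O.sum _ fun j hj => ?_
          have hj := Finset.mem_range.1 hj
          rw [map_mul, map_mul, map_pow, map_pow, ← mul_sub]
          refine O.mul_left ?_
          have e : φ α ^ j * φ β ^ (s - j) - X 0 ^ j * X 1 ^ (s - j) =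
              (φ α ^ j - X 0 ^ j) * φ β ^ (s - j) + X 0 ^ j * (φ β ^ (s - j) - X 1 ^ (s - j)) := by
            ring
          rw [e]
          have ha := O_pow_sub hα1 (O_X 0) hα j
          have hb := O_pow_sub hβ1 (O_X 1) hβ (s - j)
          exact ((ha.2.2.mul hb.1).mono (by omega)).add ((ha.2.1.mul hb.2.2).mono (by omega))
        have h3 := h2 (Finsupp.single 0 i + Finsupp.single 1 (s - i)) (by
          rw [map_add, Finsupp.degree_single, Finsupp.degree_single]
          omega)
        rw [hb, zero_sub, map_neg, neg_eq_zero, map_sum, Finset.sum_eq_single i] at h3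
        · rw [hmon, coeff_mul_monomial, if_pos le_rfl, tsub_self, mul_one] at h3
          exact h3
        · intro j hj hji
          have hj := Finset.mem_range.1 hj
          rw [hmon, coeff_mul_monomial, if_neg]
          intro hle
          have e0 := hle 0
          have e1 := hle 1
          simp at e0 e1
          omega
        · intro hi'
          exact absurd (Finset.mem_range.2 (by omega)) hi'
      rw [hc, pow_succ']
      refine Ideal.sum_mem _ fun i hi => Ideal.mul_mem_mul (h1 i (by
        have := Finset.mem_range.1 hi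
        omega)) ?_
      have hi := Finset.mem_range.1 hi
      have e : maximalIdeal B ^ s = maximalIdeal B ^ i * maximalIdeal B ^ (s - i) := by
        rw [← pow_add]
        congr 1
        omega
      rw [e]
      refine Ideal.mul_mem_mul (Ideal.pow_mem_pow ?_ _) (Ideal.pow_mem_pow ?_ _)
      · rw [hm]
        exact Ideal.subset_span (by simp)
      · rw [hm]
        exact Ideal.subset_span (by simp)
  have h0 : b ∈ (⨅ s : ℕ, maximalIdeal B ^ s : Ideal B) := by
    rw [Submodule.mem_iInf]
    exact key
  rw [Ideal.iInf_pow_eq_bot_of_isLocalRing _ (maximalIdeal.isMaximal B).ne_top] at h0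
  exact h0

end Pool.Agent.TH508.NS
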