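import Pool.Agent.W607.Defs
import Pool.Agent.TH508.NS.Loc

/-!
The equations of a surface vanish on a formal branch of a complete intersection with the same
tangent space.
-/

namespace Pool.Agent.TH508.NS

open Pool.Agent.TH508.NB Pool.Agent.W607 MvPolynomial IsLocalRing

theorem eq_bot_of_dim {B : Type*} [CommRing B] [IsLocalRing B] [IsNoetherianRing B] [IsDomain B]
    {α β : B} (hm : maximalIdeal B = Ideal.span {α, β}) {𝔞 : Ideal B}
    (h : 2 ≤ ringKrullDim (B ⧸ 𝔞)) : 𝔞 = ⊥ := by
  by_contra hne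
  obtain ⟨a, ha, ha0⟩ := Submodule.exists_mem_ne_zero_of_ne_bot hne
  have h1 : ringKrullDim B ≤ 2 := by
    refine (ringKrullDim_le_spanFinrank_maximalIdeal B).trans ?_
    rw [hm]
    have h2 : (Ideal.span {α, β}).spanFinrank ≤ 2 := by
      refine (Submodule.spanFinrank_span_le_ncard_of_finite (by simp)).trans ?_
      refine (Set.ncard_insert_le _ _).trans ?_
      simp
    exact_mod_cast h2
  have h2 : ringKrullDim (B ⧸ Ideal.span {a}) + 1 ≤ ringKrullDim B :=
    ringKrullDim_quotient_succ_le_of_nonZeroDivisor (mem_nonZeroDivisors_of_ne_zero ha0)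
  have h3 : ringKrullDim (B ⧸ 𝔞) ≤ ringKrullDim (B ⧸ Ideal.span {a}) :=
    ringKrullDim_le_of_surjective (Ideal.Quotient.factor (by
      rw [Ideal.span_le, Set.singleton_subset_iff]
      exact ha)) (Ideal.Quotient.factor_surjective _)
  have h4 : (2 : WithBot ℕ∞) + 1 ≤ 2 := by
    calc (2 : WithBot ℕ∞) + 1 ≤ ringKrullDim (B ⧸ Ideal.span {a}) + 1 := by
          gcongr
          exact h.trans h3
      _ ≤ 2 := h2.trans h1
  exact absurd h4 (by decide)

section
variable {σ : Type} {F : Type} [Field F]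

theorem sub_C_mem_mw (w : σ → F) (f : MvPolynomial σ F) : f - C (eval w f) ∈ mw w := by
  induction f using MvPolynomial.induction_on with
  | C a => simp
  | add p q hp hq =>
    have e : p + q - C (eval w (p + q)) = (p - C (eval w p)) + (q - C (eval w q)) := by
      rw [map_add, map_add]
      ring
    rw [e]
    exact Ideal.add_mem _ hp hq
  | mul_X p i hp =>
    have e : p * X i - C (eval w (p * X i)) = (p - C (eval w p)) * X i +
        C (eval w p) * (X i - C (w i)) := by
      rw [map_mul, map_mul, eval_X]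
      ring
    rw [e]
    exact Ideal.add_mem _ (Ideal.mul_mem_right _ _ hp)
      (Ideal.mul_mem_left _ _ (Ideal.subset_span ⟨i, rfl⟩))

theorem mem_mw_iff (w : σ → F) (f : MvPolynomial σ F) : f ∈ mw w ↔ eval w f = 0 := by
  constructor
  · intro h
    have h1 : mw w ≤ RingHom.ker (eval w) := by
      rw [mw, Ideal.span_le]
      rintro _ ⟨i, rfl⟩
      show eval w (X i - C (w i)) = 0
      simp
    exact h1 h
  · intro h
    have := sub_C_mem_mw w f
    rwa [h, map_zero, sub_zero] at this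

theorem mw_eq_ker (w : σ → F) : mw w = RingHom.ker (eval w) := by
  ext f
  rw [mem_mw_iff, RingHom.mem_ker]

instance mw_isMaximal (w : σ → F) : (mw w).IsMaximal := by
  rw [mw_eq_ker]
  exact RingHom.ker_isMaximal_of_surjective _ fun a => ⟨C a, eval_C a⟩

theorem O_aeval (w : σ → F) {x : σ → MvPowerSeries (Fin 2) F}
    (hx : ∀ j, O 1 (x j - MvPowerSeries.C (w j))) {f : MvPolynomial σ F} (hf : f ∈ mw w) :
    O 1 (aeval x f) := by
  refine Submodule.span_induction ?_ ?_ ?_ ?_ hf
  · rintro _ ⟨j, rfl⟩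
    have : aeval x (X j - C (w j)) = x j - MvPowerSeries.C (w j) := by
      rw [map_sub, aeval_X, aeval_C]
      rfl
    rw [this]
    exact hx j
  · rw [map_zero]
    intro d _
    rw [map_zero]
  · intro a b _ _ ha hb
    rw [map_add]
    exact ha.add hb
  · intro a b _ hb
    rw [smul_eq_mul, map_mul]
    exact O.mul_left hb

theorem isUnit_aeval (w : σ → F) {x : σ → MvPowerSeries (Fin 2) F}
    (hx : ∀ j, O 1 (x j - MvPowerSeries.C (w j))) {f : MvPolynomial σ F} (hf : f ∉ mw w) :
    IsUnit (aeval x f) := by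
  rw [MvPowerSeries.isUnit_iff_constantCoeff]
  have h1 := O_aeval w hx (sub_C_mem_mw w f) 0 (by simp)
  rw [mem_mw_iff] at hf
  have h2 : aeval x (f - C (eval w f)) = aeval x f - MvPowerSeries.C (eval w f) := by
    rw [map_sub, aeval_C]
    rfl
  rw [h2, map_sub, MvPowerSeries.coeff_zero_C, MvPowerSeries.coeff_zero_eq_constantCoeff,
    sub_eq_zero] at h1
  rw [h1]
  exact isUnit_iff_ne_zero.2 hf

/-- the quotient of the local ring at a point of a domain of local dimension at least three by an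
element of the maximal ideal has dimension at least two -/
theorem two_le_dim {R : Type*} [CommRing R] [IsNoetherianRing R] (m : Ideal R) [m.IsPrime]
    (h : 3 ≤ m.height) {a : R} (ha : a ∈ m) :
    2 ≤ ringKrullDim (Localization.AtPrime m ⧸
      Ideal.span {algebraMap R (Localization.AtPrime m) a}) := by
  have h1 : (maximalIdeal (Localization.AtPrime m)).height ≤ ringKrullDim
      (Localization.AtPrime m ⧸ Ideal.span {algebraMap R (Localization.AtPrime m) a}) + 1 := by
    refine Ideal.height_le_ringKrullDim_quotient_add_one ?_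
    rw [← Localization.AtPrime.map_eq_maximalIdeal]
    exact Ideal.mem_map_of_mem _ ha
  have h2 : (maximalIdeal (Localization.AtPrime m)).height = m.height := by
    have := maximalIdeal_height_eq_ringKrullDim (R := Localization.AtPrime m)
    rw [IsLocalization.AtPrime.ringKrullDim_eq_height m (Localization.AtPrime m)] at this
    exact_mod_cast this
  rw [h2] at h1
  have h3 : (3 : WithBot ℕ∞) ≤ ringKrullDim
      (Localization.AtPrime m ⧸ Ideal.span {algebraMap R (Localization.AtPrime m) a}) + 1 :=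
    le_trans (WithBot.coe_le_coe.2 h) h1
  generalize ringKrullDim (Localization.AtPrime m ⧸
    Ideal.span {algebraMap R (Localization.AtPrime m) a}) = d at h3
  induction d using WithBot.recBotCoe with
  | bot => simp at h3
  | coe d =>
    have h4 : (3 : ℕ∞) ≤ d + 1 :=
      WithBot.coe_le_coe.1 (show ((3 : ℕ∞) : WithBot ℕ∞) ≤ ((d + 1 : ℕ∞) : WithBot ℕ∞) from h3)
    have h5 : (2 : ℕ∞) ≤ d := by
      induction d using ENat.recTopCoe with
      | top => exact le_top
      | coe d =>
        have : 3 ≤ d + 1 := by exact_mod_cast h4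
        exact_mod_cast (show 2 ≤ d by omega)
    exact WithBot.coe_le_coe.2 h5

theorem exists_quot {R : Type} [CommRing R] [IsNoetherianRing R] (m : Ideal R) [m.IsPrime]
    (h : 3 ≤ m.height) {a : R} (ha : a ∈ m) :
    ∃ (D : Type) (_ : CommRing D) (κ : R →+* D), κ a = 0 ∧ (∀ s, s ∉ m → IsUnit (κ s)) ∧
      (∀ z : D, ∃ r t : R, t ∉ m ∧ z * κ t = κ r) ∧ 2 ≤ ringKrullDim D := by
  refine ⟨Localization.AtPrime m ⧸ Ideal.span {algebraMap R (Localization.AtPrime m) a},
    inferInstance, (Ideal.Quotient.mk _).comp (algebraMap R (Localization.AtPrime m)), ?_, ?_, ?_,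
    two_le_dim m h ha⟩
  · exact Ideal.Quotient.eq_zero_iff_mem.2 (Ideal.subset_span rfl)
  · intro s hs
    refine IsUnit.map (Ideal.Quotient.mk _) ?_
    exact IsLocalization.map_units (M := m.primeCompl) (Localization.AtPrime m)
      (⟨s, hs⟩ : m.primeCompl)
  · intro z
    obtain ⟨z, rfl⟩ := Ideal.Quotient.mk_surjective z
    obtain ⟨r, t, rfl⟩ := IsLocalization.exists_mk'_eq m.primeCompl z
    refine ⟨r, t, t.2, ?_⟩
    show Ideal.Quotient.mk _ _ * Ideal.Quotient.mk _ (algebraMap _ _ (t : R)) =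
      Ideal.Quotient.mk _ (algebraMap _ _ r)
    rw [← map_mul, IsLocalization.mk'_spec]

theorem local_structure (w : σ → F) {B : Type} [CommRing B] [IsLocalRing B] [IsNoetherianRing B]
    [Algebra F B] (θ : MvPolynomial σ F →ₐ[F] B)
    (hθm : (mw w).map (θ : MvPolynomial σ F →+* B) = maximalIdeal B)
    (hfrac : ∀ b : B, ∃ f s : MvPolynomial σ F, s ∉ mw w ∧ θ s * b = θ f)
    {J0 : Ideal (MvPolynomial σ F)} (hθJ : J0.map (θ : MvPolynomial σ F →+* B) = ⊥)
    {α β : MvPolynomial σ F} (hαm : α ∈ mw w) (hβm : β ∈ mw w)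
    (ha : ∀ j, X j - C (w j) ∈ J0 ⊔ Ideal.span {α, β} ⊔ (mw w) ^ 2)
    {x : σ → MvPowerSeries (Fin 2) F} (hx : ∀ j, O 1 (x j - MvPowerSeries.C (w j)))
    (ψ : B →ₐ[F] MvPowerSeries (Fin 2) F) (hψ : ∀ f, ψ (θ f) = aeval x f)
    (hα : aeval x α = MvPowerSeries.X 0) (hβ : aeval x β = MvPowerSeries.X 1) :
    maximalIdeal B = Ideal.span {θ α, θ β} ∧ Function.Injective ψ := by
  classical
  have hm : maximalIdeal B = Ideal.span {θ α, θ β} := by
    refine le_antisymm ?_ ?_
    · have h1 : (mw w : Ideal (MvPolynomial σ F)) ≤ J0 ⊔ Ideal.span {α, β} ⊔ (mw w) ^ 2 := by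
        nth_rewrite 1 [mw]
        rw [Ideal.span_le]
        rintro _ ⟨j, rfl⟩
        exact ha j
      have h2 := Ideal.map_mono (f := (θ : MvPolynomial σ F →+* B)) h1
      rw [Ideal.map_sup, Ideal.map_sup, hθJ, bot_sup_eq, Ideal.map_pow, hθm, Ideal.map_span,
        Set.image_pair, pow_two] at h2
      refine Submodule.le_of_le_smul_of_le_jacobson_bot (I := maximalIdeal B)
        (IsNoetherian.noetherian _) (IsLocalRing.jacobson_eq_maximalIdeal _ bot_ne_top).ge h2
    · rw [Ideal.span_le]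
      rintro b (rfl | rfl)
      · rw [← hθm]
        exact Ideal.mem_map_of_mem (θ : MvPolynomial σ F →+* B) hαm
      · rw [← hθm]
        exact Ideal.mem_map_of_mem (θ : MvPolynomial σ F →+* B) hβm
  have hres : ∀ b : B, ∃ c : F, b - algebraMap F B c ∈ maximalIdeal B := by
    intro b
    obtain ⟨f, s, hs, hb⟩ := hfrac b
    have hs' := hs
    rw [mem_mw_iff] at hs'
    refine ⟨eval w f / eval w s, ?_⟩
    have h1 : θ s * (b - algebraMap F B (eval w f / eval w s)) =
        θ (f - C (eval w f / eval w s) * s) := by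
      have e2 : algebraMap F B (eval w f / eval w s) = θ (C (eval w f / eval w s)) :=
        (θ.commutes _).symm
      rw [mul_sub, hb, e2, map_sub, map_mul]
      ring
    have h2 : θ (f - C (eval w f / eval w s) * s) ∈ maximalIdeal B := by
      rw [← hθm]
      refine Ideal.mem_map_of_mem (θ : MvPolynomial σ F →+* B) ?_
      rw [mem_mw_iff, map_sub, map_mul, eval_C, div_mul_cancel₀ _ hs', sub_self]
    rw [← h1] at h2
    refine ((maximalIdeal.isMaximal B).isPrime.mem_or_mem h2).resolve_left ?_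
    intro h3
    rw [hm] at h3
    obtain ⟨p, q, hpq⟩ := Ideal.mem_span_pair.1 h3
    have h4 : IsUnit (ψ (θ s)) := by
      rw [hψ]
      exact isUnit_aeval w hx hs
    have h5 : O 1 (ψ (θ s)) := by
      rw [← hpq, map_add, map_mul, map_mul, hψ, hψ, hα, hβ]
      exact (O.mul_left (O_X 0)).add (O.mul_left (O_X 1))
    rw [MvPowerSeries.isUnit_iff_constantCoeff, ← MvPowerSeries.coeff_zero_eq_constantCoeff_apply,
      h5 0 (by simp)] at h4
    exact not_isUnit_zero h4
  refine ⟨hm, injective_of_param hres hm ψ ?_ ?_⟩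
  · rw [hψ, hα, sub_self]
    intro d _
    rw [map_zero]
  · rw [hψ, hβ, sub_self]
    intro d _
    rw [map_zero]

theorem exists_local [Finite σ] (w : σ → F) {J0 : Ideal (MvPolynomial σ F)}
    {x : σ → MvPowerSeries (Fin 2) F} (hx : ∀ j, O 1 (x j - MvPowerSeries.C (w j)))
    (hxJ : ∀ f ∈ J0, aeval x f = 0) :
    ∃ (B : Type) (_ : CommRing B) (_ : IsLocalRing B) (_ : IsNoetherianRing B) (_ : Algebra F B)
      (θ : MvPolynomial σ F →ₐ[F] B) (ψ : B →ₐ[F] MvPowerSeries (Fin 2) F),
      (mw w).map (θ : MvPolynomial σ F →+* B) = maximalIdeal B ∧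
      (∀ b : B, ∃ f s : MvPolynomial σ F, s ∉ mw w ∧ θ s * b = θ f) ∧
      J0.map (θ : MvPolynomial σ F →+* B) = ⊥ ∧ (∀ f, ψ (θ f) = aeval x f) ∧
      ∀ (D : Type) [CommRing D] (κ : MvPolynomial σ F →+* D), (∀ f ∈ J0, κ f = 0) →
        (∀ s, s ∉ mw w → IsUnit (κ s)) → ∃ κB : B →+* D, ∀ f, κB (θ f) = κ f := by
  classical
  let S := MvPolynomial σ F
  let A := Localization.AtPrime (mw w)
  have hunit : ∀ y : (mw w).primeCompl, IsUnit ((aeval x : S →ₐ[F] _) y) := fun y =>
    isUnit_aeval w hx y.2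
  let φ : A →ₐ[F] MvPowerSeries (Fin 2) F :=
    IsLocalization.liftAlgHom (M := (mw w).primeCompl) (S := A) (f := aeval x) hunit
  have hφ : ∀ f : S, φ (algebraMap S A f) = aeval x f := fun f =>
    IsLocalization.lift_eq _ f
  let J : Ideal A := J0.map (algebraMap S A)
  have hJφ : ∀ a ∈ J, φ a = 0 := by
    intro a haJ
    have h1 : J ≤ RingHom.ker φ := by
      rw [Ideal.map_le_iff_le_comap]
      intro f hf
      show φ (algebraMap S A f) = 0
      rw [hφ, hxJ f hf]
    exact h1 haJ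
  have hJne : J ≠ ⊤ := by
    intro h
    have h1 := hJφ 1 (by rw [h]; trivial)
    rw [map_one] at h1
    exact one_ne_zero h1
  have hnt : Nontrivial (A ⧸ J) := Ideal.Quotient.nontrivial_iff.2 hJne
  have hloc : IsLocalRing (A ⧸ J) :=
    IsLocalRing.of_surjective' (Ideal.Quotient.mk J) Ideal.Quotient.mk_surjective
  have hnS : IsNoetherianRing S := inferInstance
  have hnA : IsNoetherianRing A := IsLocalization.isNoetherianRing (mw w).primeCompl A hnS
  have hnB : IsNoetherianRing (A ⧸ J) := inferInstance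
  let θ : S →ₐ[F] A ⧸ J := (Ideal.Quotient.mkₐ F J).comp (IsScalarTower.toAlgHom F S A)
  have hθe : (θ : S →+* A ⧸ J) = (Ideal.Quotient.mk J).comp (algebraMap S A) := rfl
  refine ⟨A ⧸ J, inferInstance, hloc, hnB, inferInstance, θ, Ideal.Quotient.liftₐ J φ hJφ,
    ?_, ?_, ?_, ?_, ?_⟩
  · rw [hθe, ← Ideal.map_map, Localization.AtPrime.map_eq_maximalIdeal]
    have : ((maximalIdeal A).map (Ideal.Quotient.mk J)).IsMaximal := by
      refine Ideal.IsMaximal.map_of_surjective_of_ker_le Ideal.Quotient.mk_surjective ?_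
      rw [Ideal.mk_ker]
      exact IsLocalRing.le_maximalIdeal hJne
    exact IsLocalRing.eq_maximalIdeal this
  · intro b
    obtain ⟨a, rfl⟩ := Ideal.Quotient.mk_surjective b
    obtain ⟨f, s, rfl⟩ := IsLocalization.exists_mk'_eq (mw w).primeCompl a
    refine ⟨f, s, s.2, ?_⟩
    show Ideal.Quotient.mk J (algebraMap S A s) * _ = Ideal.Quotient.mk J (algebraMap S A f)
    rw [← map_mul, mul_comm, IsLocalization.mk'_spec]
  · rw [hθe, ← Ideal.map_map]
    exact Ideal.map_quotient_self J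
  · intro f
    exact hφ f
  · intro D _ κ hκJ hκu
    let κA : A →+* D := IsLocalization.lift (M := (mw w).primeCompl) (S := A) (g := κ)
      fun y => hκu y y.2
    have hκA : ∀ f : S, κA (algebraMap S A f) = κ f := fun f => IsLocalization.lift_eq _ f
    refine ⟨Ideal.Quotient.lift J κA ?_, fun f => hκA f⟩
    intro a haJ
    have h1 : J ≤ RingHom.ker κA := by
      rw [Ideal.map_le_iff_le_comap]
      intro f hf
      show κA (algebraMap S A f) = 0
      rw [hκA, hκJ f hf]
    exact h1 haJ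

theorem vanish [Finite σ] (w : σ → F) (I : Ideal (MvPolynomial σ F))
    (hIw : I ≤ mw w) (hdim : 3 ≤ ((mw w).map (Ideal.Quotient.mk I)).height)
    {ℓ α β : MvPolynomial σ F} (hℓ : ℓ - 1 ∈ mw w) (hαm : α ∈ mw w) (hβm : β ∈ mw w)
    {J0 : Ideal (MvPolynomial σ F)} (hJ0 : J0 ≤ I ⊔ Ideal.span {ℓ - 1})
    (ha : ∀ j, X j - C (w j) ∈ J0 ⊔ Ideal.span {α, β} ⊔ (mw w) ^ 2)
    {x : σ → MvPowerSeries (Fin 2) F} (hx : ∀ j, O 1 (x j - MvPowerSeries.C (w j)))
    (hxJ : ∀ f ∈ J0, aeval x f = 0) (hα : aeval x α = MvPowerSeries.X 0)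
    (hβ : aeval x β = MvPowerSeries.X 1) : ∀ f ∈ I, aeval x f = 0 := by
  classical
  obtain ⟨B, _, _, _, _, θ, ψ, hθm, hfrac, hθJ, hψ, huniv⟩ := exists_local w hx hxJ
  obtain ⟨hm, hinj⟩ := local_structure w θ hθm hfrac hθJ hαm hβm ha hx ψ hψ hα hβ
  have hdP : IsDomain (MvPowerSeries (Fin 2) F) := NoZeroDivisors.to_isDomain _
  have hdom : IsDomain B := hinj.isDomain ψ.toRingHom
  -- the local ring of the surface
  have hmR : ((mw w).map (Ideal.Quotient.mk I)).IsMaximal := by
    refine Ideal.IsMaximal.map_of_surjective_of_ker_le Ideal.Quotient.mk_surjective ?_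
    rw [Ideal.mk_ker]
    exact hIw
  have hcomap : mw w = ((mw w).map (Ideal.Quotient.mk I)).comap (Ideal.Quotient.mk I) := by
    rw [Ideal.comap_map_of_surjective _ Ideal.Quotient.mk_surjective]
    refine (sup_eq_left.2 ?_).symm
    rw [← RingHom.ker_eq_comap_bot, Ideal.mk_ker]
    exact hIw
  obtain ⟨D, _, κ', hκ'ℓ, hκ'u, hκ's, h2⟩ := exists_quot ((mw w).map (Ideal.Quotient.mk I)) hdim
    (Ideal.mem_map_of_mem (Ideal.Quotient.mk I) hℓ)
  let κ : MvPolynomial σ F →+* D := κ'.comp (Ideal.Quotient.mk I)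
  have hκI : ∀ f ∈ I, κ f = 0 := by
    intro f hf
    show κ' (Ideal.Quotient.mk I f) = 0
    rw [Ideal.Quotient.eq_zero_iff_mem.2 hf, map_zero]
  have hκJ : ∀ f ∈ J0, κ f = 0 := by
    intro a haJ
    have h1 : J0 ≤ RingHom.ker κ := by
      refine hJ0.trans (sup_le ?_ ?_)
      · intro f hf
        exact hκI f hf
      · rw [Ideal.span_le, Set.singleton_subset_iff]
        exact hκ'ℓ
    exact h1 haJ
  have hκu : ∀ s, s ∉ mw w → IsUnit (κ s) := by
    intro s hs
    refine hκ'u _ ?_
    intro h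
    apply hs
    rw [hcomap]
    exact h
  obtain ⟨κB, hκB⟩ := huniv _ κ hκJ hκu
  have hκBs : Function.Surjective κB := by
    intro z
    obtain ⟨r, t, ht, hz⟩ := hκ's z
    obtain ⟨r', rfl⟩ := Ideal.Quotient.mk_surjective r
    obtain ⟨t', rfl⟩ := Ideal.Quotient.mk_surjective t
    have ht' : t' ∉ mw w := by
      intro h
      rw [hcomap] at h
      exact ht h
    have hu : IsUnit (θ t') := by
      by_contra hnu
      have h5 : θ t' ∈ maximalIdeal B := hnu
      rw [hm] at h5
      obtain ⟨p, q, hpq⟩ := Ideal.mem_span_pair.1 h5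
      have h4 : IsUnit (ψ (θ t')) := by
        rw [hψ]
        exact isUnit_aeval w hx ht'
      have h6 : O 1 (ψ (θ t')) := by
        rw [← hpq, map_add, map_mul, map_mul, hψ, hψ, hα, hβ]
        exact (O.mul_left (O_X 0)).add (O.mul_left (O_X 1))
      rw [MvPowerSeries.isUnit_iff_constantCoeff, ← MvPowerSeries.coeff_zero_eq_constantCoeff_apply,
        h6 0 (by simp)] at h4
      exact not_isUnit_zero h4
    obtain ⟨u, hu⟩ := hu
    refine ⟨θ r' * ((u⁻¹ : Bˣ) : B), ?_⟩
    have e1 : κB ((u⁻¹ : Bˣ) : B) * κ t' = 1 := by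
      rw [← hκB, ← map_mul, ← hu, Units.inv_mul, map_one]
    have e2 : z * κ t' = κ r' := hz
    rw [map_mul, hκB, ← e2]
    calc z * κ t' * κB ((u⁻¹ : Bˣ) : B) = z * (κB ((u⁻¹ : Bˣ) : B) * κ t') := by ring
      _ = z := by rw [e1, mul_one]
  have hκ𝔞 : ∀ b ∈ I.map (θ : MvPolynomial σ F →+* B), κB b = 0 := by
    intro b hb
    have h1 : I.map (θ : MvPolynomial σ F →+* B) ≤ RingHom.ker κB := by
      rw [Ideal.map_le_iff_le_comap]
      intro f hf
      show κB (θ f) = 0
      rw [hκB]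
      exact hκI f hf
    exact h1 hb
  have h3 := eq_bot_of_dim hm (h2.trans (ringKrullDim_le_of_surjective
    (Ideal.Quotient.lift (I.map (θ : MvPolynomial σ F →+* B)) κB hκ𝔞)
      (Ideal.Quotient.lift_surjective_of_surjective _ _ hκBs)))
  intro f hf
  have h4 : θ f ∈ I.map (θ : MvPolynomial σ F →+* B) :=
    Ideal.mem_map_of_mem (θ : MvPolynomial σ F →+* B) hf
  rw [h3] at h4
  rw [← hψ, (Submodule.mem_bot B).1 h4, map_zero]

end

end Pool.Agent.TH508.NS
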