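import Pool.Agent.TH836.NS.Proj
import Pool.Agent.TH508.NS.Dim
import Pool.Agent.TH508.NS.Growth
import Pool.Agent.TH508.NS.Vanish
import Pool.Agent.TH525.NS.Implicit

/-!
A section of a projective surface with an ordinary double point at a smooth point of the surface
is `u v` in suitable formal coordinates.
-/

namespace Pool.Agent.TH508.NS

open Filter Topology MvPolynomial Pool.Agent.W607 Pool.Agent.TH508.NB Pool.Agent.TH836.NS

/-- the linear polynomial with the given gradient, vanishing at `w` -/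
noncomputable def Th {N : ℕ} (w : Fin (N + 1) → ℂ) :
    (Fin (N + 1) → ℂ) →ₗ[ℂ] MvPolynomial (Fin (N + 1)) ℂ :=
  ∑ j, (LinearMap.toSpanSingleton ℂ (MvPolynomial (Fin (N + 1)) ℂ) (X j - C (w j))).comp
    (LinearMap.proj j)

theorem Th_apply {N : ℕ} (w g : Fin (N + 1) → ℂ) :
    Th w g = ∑ j, C (g j) * (X j - C (w j)) := by
  rw [Th, LinearMap.sum_apply]
  refine Finset.sum_congr rfl fun j _ => ?_
  rw [LinearMap.comp_apply, LinearMap.proj_apply, LinearMap.toSpanSingleton_apply, smul_eq_C_mul]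

theorem Th_mem {N : ℕ} (w g : Fin (N + 1) → ℂ) : Th w g ∈ mw w := by
  rw [Th_apply]
  exact Ideal.sum_mem _ fun j _ => Ideal.mul_mem_left _ _ (Ideal.subset_span ⟨j, rfl⟩)

theorem eq_single_of_degree {σ : Type*} {d : σ →₀ ℕ} (hd : d.degree = 1) :
    ∃ a, Finsupp.single a 1 = d := by
  have h0 : d ≠ 0 := by
    rintro rfl
    simp at hd
  obtain ⟨a, ha⟩ := Finsupp.ne_iff.1 h0
  have ha' : Finsupp.single a 1 ≤ d := by
    rw [Finsupp.single_le_iff]
    exact Nat.one_le_iff_ne_zero.2 (by simpa using ha)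
  refine ⟨a, ?_⟩
  have h1 : d = Finsupp.single a 1 + (d - Finsupp.single a 1) := (add_tsub_cancel_of_le ha').symm
  have h2 := congrArg Finsupp.degree h1
  rw [map_add, Finsupp.degree_single, hd] at h2
  have h3 : (d - Finsupp.single a 1).degree = 0 := by omega
  rw [Finsupp.degree_eq_zero_iff] at h3
  rw [h3, add_zero] at h1
  exact h1.symm

theorem linear_eq {N : ℕ} {φ : MvPolynomial (Fin (N + 1)) ℂ} (hφ : φ.IsHomogeneous 1) :
    φ = ∑ j, C (coeff (Finsupp.single j 1) φ) * X j := by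
  classical
  ext d
  rw [coeff_sum]
  simp only [coeff_C_mul, coeff_X]
  by_cases hd : d.degree = 1
  · obtain ⟨a, rfl⟩ := eq_single_of_degree hd
    rw [Finset.sum_eq_single a]
    · rw [if_pos rfl, mul_one]
    · intro b _ hba
      rw [if_neg, mul_zero]
      intro h
      exact hba (Finsupp.single_left_injective one_ne_zero h)
    · intro h
      exact absurd (Finset.mem_univ _) h
  · rw [hφ.coeff_eq_zero hd, Finset.sum_eq_zero]
    intro j _
    rw [if_neg, mul_zero]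
    rintro rfl
    exact hd (Finsupp.degree_single j 1)

theorem linear_sub {N : ℕ} {φ : MvPolynomial (Fin (N + 1)) ℂ} (hφ : φ.IsHomogeneous 1)
    (w : Fin (N + 1) → ℂ) :
    φ - C (eval w φ) = Th w (fun j => coeff (Finsupp.single j 1) φ) := by
  have h1 : eval w φ = ∑ j, coeff (Finsupp.single j 1) φ * w j := by
    nth_rewrite 1 [linear_eq hφ]
    rw [map_sum]
    simp
  rw [Th_apply, h1]
  nth_rewrite 1 [linear_eq hφ]
  rw [map_sum, ← Finset.sum_sub_distrib]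
  refine Finset.sum_congr rfl fun j _ => ?_
  rw [map_mul]
  ring

/-- derivative at `w` in the direction `w` -/
noncomputable def Dw {N : ℕ} (w : Fin (N + 1) → ℂ) (f : MvPolynomial (Fin (N + 1)) ℂ) : ℂ :=
  ∑ j, w j * eval w (pderiv j f)

theorem Dw_hom {N : ℕ} (w : Fin (N + 1) → ℂ) {f : MvPolynomial (Fin (N + 1)) ℂ} {d : ℕ}
    (hf : f.IsHomogeneous d) : Dw w f = d * eval w f := by
  have h := congrArg (eval w) hf.sum_X_mul_pderiv
  rw [map_sum] at h
  simp only [map_mul, eval_X, nsmul_eq_mul, map_natCast] at h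
  exact h

theorem Dw_add {N : ℕ} (w : Fin (N + 1) → ℂ) (f g : MvPolynomial (Fin (N + 1)) ℂ) :
    Dw w (f + g) = Dw w f + Dw w g := by
  simp only [Dw, map_add, mul_add, Finset.sum_add_distrib]

theorem Dw_I {N : ℕ} {I : Ideal (MvPolynomial (Fin (N + 1)) ℂ)} (hIh : Hmg I)
    {w : Fin (N + 1) → ℂ} (hwI : ∀ f ∈ I, eval w f = 0) {f : MvPolynomial (Fin (N + 1)) ℂ}
    (hf : f ∈ I) : Dw w f = 0 := by
  have h1 : ∀ s : Finset ℕ, Dw w (∑ i ∈ s, homogeneousComponent i f) = 0 := by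
    intro s
    classical
    induction s using Finset.induction_on with
    | empty => simp [Dw]
    | insert a s ha ih =>
      rw [Finset.sum_insert ha, Dw_add, ih, add_zero,
        Dw_hom w (homogeneousComponent_isHomogeneous a f), hwI _ (hIh f hf a), mul_zero]
  have h2 := sum_homogeneousComponent f
  rw [← h2]
  exact h1 _

theorem Dw_sq {N : ℕ} {w : Fin (N + 1) → ℂ} {f : MvPolynomial (Fin (N + 1)) ℂ}
    (hf : f ∈ (mw w) ^ 2) : Dw w f = 0 := by
  rw [pow_two] at hf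
  refine Submodule.mul_induction_on hf ?_ ?_
  · intro a ha b hb
    have ha := (mem_mw_iff w a).1 ha
    have hb := (mem_mw_iff w b).1 hb
    refine Finset.sum_eq_zero fun j _ => ?_
    rw [pderiv_mul, map_add, map_mul, map_mul, ha, hb]
    ring
  · intro a b ha hb
    rw [Dw_add, ha, hb, add_zero]

section main

variable {N : ℕ} {I : Ideal (MvPolynomial (Fin (N + 1)) ℂ)}

theorem sup_le_mw {w : Fin (N + 1) → ℂ} (hwI : ∀ f ∈ I, eval w f = 0) :
    I ⊔ (mw w) ^ 2 ≤ mw w :=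
  sup_le (fun f hf => (mem_mw_iff w f).2 (hwI f hf)) (Ideal.pow_le_self two_ne_zero)

theorem span_coords (hIh : Hmg I) {ℓ : MvPolynomial (Fin (N + 1)) ℂ} (hℓ : ℓ.IsHomogeneous 1)
    {w : Fin (N + 1) → ℂ} (hwI : ∀ f ∈ I, eval w f = 0) (hwℓ : eval w ℓ = 1)
    (hsm : Module.finrank ℂ (MvPolynomial (Fin (N + 1)) ℂ ⧸ (I ⊔ (mw w) ^ 2)) = 4)
    {α β : MvPolynomial (Fin (N + 1)) ℂ} (hα : eval w α = 0) (hβ : eval w β = 0)
    (hind : ∀ a b : ℂ, C a * α + C b * β ∈ I ⊔ Ideal.span {ℓ - 1} ⊔ (mw w) ^ 2 →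
      a = 0 ∧ b = 0) :
    (∀ a b c : ℂ, C a * α + C b * β + C c * (ℓ - 1) ∈ I ⊔ (mw w) ^ 2 →
      a = 0 ∧ b = 0 ∧ c = 0) ∧
    ∀ f ∈ mw w, ∃ a b c : ℂ, f - (C a * α + C b * β + C c * (ℓ - 1)) ∈ I ⊔ (mw w) ^ 2 := by
  have h1 : ∀ a b c : ℂ, C a * α + C b * β + C c * (ℓ - 1) ∈ I ⊔ (mw w) ^ 2 →
      a = 0 ∧ b = 0 ∧ c = 0 := by
    intro a b c h
    have h2 : C a * α + C b * β ∈ I ⊔ Ideal.span {ℓ - 1} ⊔ (mw w) ^ 2 := by
      have e : C a * α + C b * β = (C a * α + C b * β + C c * (ℓ - 1)) - C c * (ℓ - 1) := by ring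
      rw [e]
      refine Ideal.sub_mem _ ?_ ?_
      · exact (sup_le_sup_right (le_sup_left : I ≤ I ⊔ Ideal.span {ℓ - 1}) ((mw w) ^ 2)) h
      · exact Ideal.mul_mem_left _ _
          (Ideal.mem_sup_left (Ideal.mem_sup_right (Ideal.subset_span rfl)))
    obtain ⟨ha, hb⟩ := hind a b h2
    refine ⟨ha, hb, ?_⟩
    rw [ha, hb, map_zero, zero_mul, zero_mul, zero_add, zero_add] at h
    obtain ⟨p, hp, q, hq, hpq⟩ := Submodule.mem_sup.1 h
    have h3 : Dw w (C c * (ℓ - 1)) = c := by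
      have e : C c * (ℓ - 1) = C c * ℓ + C (-c) := by
        rw [map_neg]
        ring
      have e1 : (C c * ℓ).IsHomogeneous 1 := by
        have := (isHomogeneous_C (Fin (N + 1)) c).mul hℓ
        rwa [zero_add] at this
      rw [e, Dw_add, Dw_hom w e1, Dw_hom w (isHomogeneous_C (Fin (N + 1)) (-c)), map_mul, eval_C,
        hwℓ]
      simp
    rw [← hpq, Dw_add, Dw_I hIh hwI hp, Dw_sq hq, add_zero] at h3
    exact h3.symm
  refine ⟨h1, fun f hf => ?_⟩
  have hle := sup_le_mw hwI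
  have hmem : ∀ a b c : ℂ, C a * α + C b * β + C c * (ℓ - 1) ∈ mw w := by
    intro a b c
    rw [mem_mw_iff]
    simp [hα, hβ, hwℓ]
  let v : Fin 4 → MvPolynomial (Fin (N + 1)) ℂ ⧸ (I ⊔ (mw w) ^ 2) :=
    fun i => Ideal.Quotient.mk _ ((![1, α, β, ℓ - 1] : Fin 4 → MvPolynomial (Fin (N + 1)) ℂ) i)
  have hsum : ∀ g : Fin 4 → ℂ, ∑ i, g i • v i = Ideal.Quotient.mk _
      (C (g 0) + (C (g 1) * α + C (g 2) * β + C (g 3) * (ℓ - 1))) := by
    intro g
    have e : ∀ (a : ℂ) (p : MvPolynomial (Fin (N + 1)) ℂ),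
        a • (Ideal.Quotient.mk (I ⊔ (mw w) ^ 2) p) = Ideal.Quotient.mk (I ⊔ (mw w) ^ 2) (C a * p) := by
      intro a p
      rw [← smul_eq_C_mul]
      rfl
    rw [Fin.sum_univ_four]
    simp only [v, e]
    rw [← map_add, ← map_add, ← map_add]
    congr 1
    simp
    ring
  have hli : LinearIndependent ℂ v := by
    rw [Fintype.linearIndependent_iff]
    intro g hg
    rw [hsum, Ideal.Quotient.eq_zero_iff_mem] at hg
    have h0 : g 0 = 0 := by
      have h2 := hle hg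
      have h3 := (Ideal.add_mem_iff_left (mw w) (hmem (g 1) (g 2) (g 3))).1 h2
      rw [mem_mw_iff, eval_C] at h3
      exact h3
    rw [h0, map_zero, zero_add] at hg
    obtain ⟨ha, hb, hc⟩ := h1 _ _ _ hg
    intro i
    fin_cases i
    · exact h0
    · exact ha
    · exact hb
    · exact hc
  have hfin : FiniteDimensional ℂ (MvPolynomial (Fin (N + 1)) ℂ ⧸ (I ⊔ (mw w) ^ 2)) :=
    FiniteDimensional.of_finrank_pos (by rw [hsm]; norm_num)
  have hsp : Submodule.span ℂ (Set.range v) = ⊤ :=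
    hli.span_eq_top_of_card_eq_finrank (by rw [hsm]; simp)
  have hf' : (Ideal.Quotient.mk (I ⊔ (mw w) ^ 2) f) ∈ Submodule.span ℂ (Set.range v) := by
    rw [hsp]
    trivial
  obtain ⟨g, hg⟩ := (Submodule.mem_span_range_iff_exists_fun ℂ).1 hf'
  rw [hsum, Ideal.Quotient.mk_eq_mk_iff_sub_mem] at hg
  have h0 : g 0 = 0 := by
    have h2 := hle hg
    rw [mem_mw_iff, map_sub, (mem_mw_iff w f).1 hf, map_add,
      (mem_mw_iff w _).1 (hmem (g 1) (g 2) (g 3)), eval_C, add_zero, sub_zero] at h2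
    exact h2
  refine ⟨g 1, g 2, g 3, ?_⟩
  rw [h0, map_zero, zero_add] at hg
  rw [← neg_mem_iff, neg_sub]
  exact hg

theorem three_le_height (hI : I.IsPrime) (hIh : Hmg I) {δ : ℝ} (hδ : 0 < δ)
    (hgr : Tendsto (fun t : ℕ => 2 * (hilb I t : ℝ) / (t : ℝ) ^ 2) atTop (𝓝 δ))
    {w : Fin (N + 1) → ℂ} (hwI : ∀ f ∈ I, eval w f = 0) :
    3 ≤ ((mw w).map (Ideal.Quotient.mk I)).height := by
  have hmR : ((mw w).map (Ideal.Quotient.mk I)).IsMaximal := by
    refine Ideal.IsMaximal.map_of_surjective_of_ker_le Ideal.Quotient.mk_surjective ?_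
    rw [Ideal.mk_ker]
    exact fun f hf => (mem_mw_iff w f).2 (hwI f hf)
  obtain ⟨s, g, hg, hgf⟩ := exists_finite_inj_algHom_of_fg ℂ (MvPolynomial (Fin (N + 1)) ℂ ⧸ I)
  have h1 : 3 ≤ s := three_le_of_growth hI hIh hδ hgr g hgf
  have h2 : (s : ℕ∞) ≤ ((mw w).map (Ideal.Quotient.mk I)).height :=
    height_ge g hg hgf.to_isIntegral _
  exact le_trans (by exact_mod_cast h1) h2

theorem exists_branch0 (hI : I.IsPrime) (hIh : Hmg I) {δ : ℝ} (hδ : 0 < δ)
    (hgr : Tendsto (fun t : ℕ => 2 * (hilb I t : ℝ) / (t : ℝ) ^ 2) atTop (𝓝 δ))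
    {ℓ : MvPolynomial (Fin (N + 1)) ℂ} (hℓ : ℓ.IsHomogeneous 1)
    {w : Fin (N + 1) → ℂ} (hwI : ∀ f ∈ I, eval w f = 0) (hwℓ : eval w ℓ = 1)
    (hsm : Module.finrank ℂ (MvPolynomial (Fin (N + 1)) ℂ ⧸ (I ⊔ (mw w) ^ 2)) = 4)
    {α β : MvPolynomial (Fin (N + 1)) ℂ} (hα1 : α.IsHomogeneous 1) (hβ1 : β.IsHomogeneous 1)
    (hα : eval w α = 0) (hβ : eval w β = 0)
    (hind : ∀ a b : ℂ, C a * α + C b * β ∈ I ⊔ Ideal.span {ℓ - 1} ⊔ (mw w) ^ 2 →
      a = 0 ∧ b = 0) :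
    ∃ x : Fin (N + 1) → MvPowerSeries (Fin 2) ℂ,
      (∀ j, O 1 (x j - MvPowerSeries.C (w j))) ∧ (∀ f ∈ I, aeval x f = 0) ∧ aeval x ℓ = 1 ∧
      aeval x α = MvPowerSeries.X 0 ∧ aeval x β = MvPowerSeries.X 1 := by
  classical
  obtain ⟨hli, hspan⟩ := span_coords hIh hℓ hwI hwℓ hsm hα hβ hind
  let gr : MvPolynomial (Fin (N + 1)) ℂ → Fin (N + 1) → ℂ :=
    fun φ j => coeff (Finsupp.single j 1) φ
  have hgα : Th w (gr α) = α := by
    have := linear_sub hα1 w
    rw [hα, map_zero, sub_zero] at this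
    exact this.symm
  have hgβ : Th w (gr β) = β := by
    have := linear_sub hβ1 w
    rw [hβ, map_zero, sub_zero] at this
    exact this.symm
  have hgℓ : Th w (gr ℓ) = ℓ - 1 := by
    have := linear_sub hℓ w
    rw [hwℓ, map_one] at this
    exact this.symm
  let V : Submodule ℂ (Fin (N + 1) → ℂ) :=
    ((I ⊔ (mw w) ^ 2).restrictScalars ℂ).comap (Th w)
  have hV : ∀ v : Fin (N + 1) → ℂ, v ∈ V ↔ Th w v ∈ I ⊔ (mw w) ^ 2 := fun v => Iff.rfl
  let b := Module.finBasis ℂ V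
  have hf : ∀ i, ∃ f ∈ I, f - Th w (b i : Fin (N + 1) → ℂ) ∈ (mw w) ^ 2 := by
    intro i
    obtain ⟨p, hp, q, hq, hpq⟩ := Submodule.mem_sup.1 ((hV _).1 (b i).2)
    refine ⟨p, hp, ?_⟩
    rw [← hpq, sub_add_cancel_left]
    exact neg_mem hq
  choose f hfI hf2 using hf
  let ι := Fin (Module.finrank ℂ V) ⊕ Fin 3
  let G : ι → MvPolynomial (Fin (N + 1)) ℂ := Sum.elim f ![ℓ - 1, α, β]
  let g : ι → Fin (N + 1) → ℂ := Sum.elim (fun i => (b i : Fin (N + 1) → ℂ)) ![gr ℓ, gr α, gr β]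
  let y : ι → MvPowerSeries (Fin 2) ℂ := Sum.elim 0 ![0, MvPowerSeries.X 0, MvPowerSeries.X 1]
  have hO0 : O 1 (0 : MvPowerSeries (Fin 2) ℂ) := fun d _ => by rw [map_zero]
  have hy : ∀ i, O 1 (y i) := by
    rintro (i | i)
    · exact hO0
    · fin_cases i
      · exact hO0
      · exact O_X 0
      · exact O_X 1
  have hG : ∀ i, G i - ∑ j, C (g i j) * (X j - C (w j)) ∈ (mw w) ^ 2 := by
    intro i
    rw [← Th_apply]
    rcases i with i | i
    · exact hf2 i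
    · fin_cases i
      · show ℓ - 1 - Th w (gr ℓ) ∈ _
        rw [hgℓ, sub_self]
        exact zero_mem _
      · show α - Th w (gr α) ∈ _
        rw [hgα, sub_self]
        exact zero_mem _
      · show β - Th w (gr β) ∈ _
        rw [hgβ, sub_self]
        exact zero_mem _
  have hg : LinearIndependent ℂ g := by
    rw [Fintype.linearIndependent_iff]
    intro c hc
    rw [Fintype.sum_sum_type, Fin.sum_univ_three] at hc
    have e0 : (∑ i, c (Sum.inl i) • b i : V) = (∑ i, c (Sum.inl i) • b i : V) := rfl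
    have e1 : ∑ i, c (Sum.inl i) • g (Sum.inl i) =
        ((∑ i, c (Sum.inl i) • b i : V) : Fin (N + 1) → ℂ) := by
      rw [Submodule.coe_sum]
      rfl
    have e2 : C (c (Sum.inr 1)) * α + C (c (Sum.inr 2)) * β + C (c (Sum.inr 0)) * (ℓ - 1) ∈
        I ⊔ (mw w) ^ 2 := by
      have h1 := congrArg (Th w) hc
      rw [e1, map_add, map_add, map_add, map_smul, map_smul, map_smul, map_zero] at h1
      have h2 : c (Sum.inr 0) • Th w (g (Sum.inr 0)) + c (Sum.inr 1) • Th w (g (Sum.inr 1)) +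
          c (Sum.inr 2) • Th w (g (Sum.inr 2)) =
          C (c (Sum.inr 1)) * α + C (c (Sum.inr 2)) * β + C (c (Sum.inr 0)) * (ℓ - 1) := by
        rw [show Th w (g (Sum.inr 0)) = ℓ - 1 from hgℓ, show Th w (g (Sum.inr 1)) = α from hgα,
          show Th w (g (Sum.inr 2)) = β from hgβ, smul_eq_C_mul, smul_eq_C_mul, smul_eq_C_mul]
        ring
      rw [← h2]
      have h3 := eq_neg_of_add_eq_zero_right h1
      rw [h3]
      exact neg_mem ((hV _).1 (∑ i, c (Sum.inl i) • b i : V).2)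
    obtain ⟨h1, h2, h0⟩ := hli _ _ _ e2
    rw [h0, h1, h2, zero_smul, zero_smul, zero_smul, add_zero, add_zero, add_zero, e1] at hc
    have h3 : (∑ i, c (Sum.inl i) • b i : V) = 0 := Subtype.ext hc
    have h4 := Fintype.linearIndependent_iff.1 b.linearIndependent _ h3
    rintro (i | i)
    · exact h4 i
    · fin_cases i
      · exact h0
      · exact h1
      · exact h2
  obtain ⟨x, hx, hxG⟩ := Pool.Agent.TH525.NS.formal_implicit w G g hG hg y hy
  have hxℓ : aeval x (ℓ - 1) = 0 := hxG (Sum.inr 0)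
  have hxα : aeval x α = MvPowerSeries.X 0 := hxG (Sum.inr 1)
  have hxβ : aeval x β = MvPowerSeries.X 1 := hxG (Sum.inr 2)
  have hxf : ∀ i, aeval x (f i) = 0 := fun i => hxG (Sum.inl i)
  let J0 : Ideal (MvPolynomial (Fin (N + 1)) ℂ) := Ideal.span (Set.range f) ⊔ Ideal.span {ℓ - 1}
  have hJ0 : J0 ≤ I ⊔ Ideal.span {ℓ - 1} := by
    refine sup_le_sup_right ?_ _
    rw [Ideal.span_le]
    rintro _ ⟨i, rfl⟩
    exact hfI i
  have hxJ : ∀ p ∈ J0, aeval x p = 0 := by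
    intro p hp
    have h1 : J0 ≤ RingHom.ker (aeval x : MvPolynomial (Fin (N + 1)) ℂ →ₐ[ℂ] _) := by
      refine sup_le ?_ ?_
      · rw [Ideal.span_le]
        rintro _ ⟨i, rfl⟩
        exact hxf i
      · rw [Ideal.span_le, Set.singleton_subset_iff]
        exact hxℓ
    exact h1 hp
  have hVJ : ∀ v ∈ V, Th w v ∈ J0 ⊔ Ideal.span {α, β} ⊔ (mw w) ^ 2 := by
    intro v hv
    have h1 : (⟨v, hv⟩ : V) = ∑ i, b.repr ⟨v, hv⟩ i • b i := (b.sum_repr _).symm
    have h2 : v = ∑ i, b.repr ⟨v, hv⟩ i • (b i : Fin (N + 1) → ℂ) := by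
      have := congrArg (fun z : V => (z : Fin (N + 1) → ℂ)) h1
      simp only [Submodule.coe_sum] at this
      exact this
    rw [h2, map_sum]
    refine Ideal.sum_mem _ fun i _ => ?_
    rw [map_smul, smul_eq_C_mul]
    refine Ideal.mul_mem_left _ _ ?_
    have e : Th w (b i : Fin (N + 1) → ℂ) = f i - (f i - Th w (b i : Fin (N + 1) → ℂ)) := by ring
    rw [e]
    refine Ideal.sub_mem _ ?_ ?_
    · exact Ideal.mem_sup_left (Ideal.mem_sup_left (Ideal.mem_sup_left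
        (Ideal.subset_span ⟨i, rfl⟩)))
    · exact Ideal.mem_sup_right (hf2 i)
  have ha : ∀ j, X j - C (w j) ∈ J0 ⊔ Ideal.span {α, β} ⊔ (mw w) ^ 2 := by
    intro j
    obtain ⟨a, b', c, habc⟩ := hspan (X j - C (w j)) (Ideal.subset_span ⟨j, rfl⟩)
    have e1 : X j - C (w j) = Th w (Pi.single j 1) := by
      rw [Th_apply, Finset.sum_eq_single j]
      · simp
      · intro i _ hij
        rw [Pi.single_eq_of_ne hij, map_zero, zero_mul]
      · intro h
        exact absurd (Finset.mem_univ _) h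
    have e2 : X j - C (w j) - (C a * α + C b' * β + C c * (ℓ - 1)) =
        Th w (Pi.single j 1 - (a • gr α + b' • gr β + c • gr ℓ)) := by
      rw [map_sub, map_add, map_add, map_smul, map_smul, map_smul, hgα, hgβ, hgℓ, ← e1,
        smul_eq_C_mul, smul_eq_C_mul, smul_eq_C_mul]
    rw [e2] at habc
    have h1 := hVJ _ habc
    rw [← e2] at h1
    have e3 : X j - C (w j) = (X j - C (w j) - (C a * α + C b' * β + C c * (ℓ - 1))) +
        (C a * α + C b' * β + C c * (ℓ - 1)) := by ring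
    rw [e3]
    refine Ideal.add_mem _ h1 (Ideal.add_mem _ (Ideal.add_mem _ ?_ ?_) ?_)
    · exact Ideal.mul_mem_left _ _ (Ideal.mem_sup_left (Ideal.mem_sup_right
        (Ideal.subset_span (by simp))))
    · exact Ideal.mul_mem_left _ _ (Ideal.mem_sup_left (Ideal.mem_sup_right
        (Ideal.subset_span (by simp))))
    · exact Ideal.mul_mem_left _ _ (Ideal.mem_sup_left (Ideal.mem_sup_left (Ideal.mem_sup_right
        (Ideal.subset_span rfl))))
  refine ⟨x, hx, ?_, ?_, hxα, hxβ⟩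
  · refine vanish w I (fun f hf => (mem_mw_iff w f).2 (hwI f hf))
      (three_le_height hI hIh hδ hgr hwI) ?_ ((mem_mw_iff w α).2 hα) ((mem_mw_iff w β).2 hβ) hJ0
      ha hx hxJ hxα hxβ
    rw [mem_mw_iff, map_sub, hwℓ, map_one, sub_self]
  · rw [map_sub, map_one, sub_eq_zero] at hxℓ
    exact hxℓ

/-- `F₀` has an ordinary double point at the point `w` of the surface of `I`, seen in the chart
`ℓ = 1`: modulo the cube of the maximal ideal of the point it is the product of two linear forms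
`α`, `β` which vanish at `w` and are linearly independent modulo the square of the maximal ideal
(two distinct tangent lines). -/
def NodeAt (I : Ideal (MvPolynomial (Fin (N + 1)) ℂ)) (ℓ F₀ : MvPolynomial (Fin (N + 1)) ℂ)
    (w : Fin (N + 1) → ℂ) : Prop :=
  ∃ α β : MvPolynomial (Fin (N + 1)) ℂ, α.IsHomogeneous 1 ∧ β.IsHomogeneous 1 ∧
    eval w α = 0 ∧ eval w β = 0 ∧
    (∀ a b : ℂ, C a * α + C b * β ∈ I ⊔ Ideal.span {ℓ - 1} ⊔ (mw w) ^ 2 → a = 0 ∧ b = 0) ∧
    F₀ - α * β ∈ I ⊔ Ideal.span {ℓ - 1} ⊔ (mw w) ^ 3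

theorem O_aeval_pow {w : Fin (N + 1) → ℂ} {x : Fin (N + 1) → MvPowerSeries (Fin 2) ℂ}
    (hx : ∀ j, O 1 (x j - MvPowerSeries.C (w j))) : ∀ (n : ℕ) {f : MvPolynomial (Fin (N + 1)) ℂ},
    f ∈ (mw w) ^ n → O n (aeval x f) := by
  intro n
  induction n with
  | zero => intro f _; exact O_zero _
  | succ n ih =>
    intro f hf
    rw [pow_succ] at hf
    refine Submodule.mul_induction_on hf ?_ ?_
    · intro a ha b hb
      rw [map_mul]
      exact (ih ha).mul (O_aeval w hx hb)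
    · intro a b ha hb
      rw [map_add]
      exact ha.add hb

/-- **Existence of formal nodes.** A form with an ordinary double point at a smooth point of a
projective surface is `u v` in suitable formal coordinates. -/
theorem exists_formalNode (hI : I.IsPrime) (hIh : Hmg I) {δ : ℝ} (hδ : 0 < δ)
    (hgr : Tendsto (fun t : ℕ => 2 * (hilb I t : ℝ) / (t : ℝ) ^ 2) atTop (𝓝 δ))
    {ℓ F₀ : MvPolynomial (Fin (N + 1)) ℂ} (hℓ : ℓ.IsHomogeneous 1)
    {w : Fin (N + 1) → ℂ} (hwI : ∀ f ∈ I, eval w f = 0) (hwℓ : eval w ℓ = 1)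
    (hsm : Module.finrank ℂ (MvPolynomial (Fin (N + 1)) ℂ ⧸ (I ⊔ (mw w) ^ 2)) = 4)
    (hnode : NodeAt I ℓ F₀ w) :
    ∃ x : Fin (N + 1) → PP ℂ, FormalNode I ℓ F₀ x ∧ ∀ j, cc (x j) 0 0 = w j := by
  classical
  obtain ⟨α, β, hα1, hβ1, hα, hβ, hind, hF⟩ := hnode
  obtain ⟨x, hx, hxI, hxℓ, hxα, hxβ⟩ := exists_branch0 hI hIh hδ hgr hℓ hwI hwℓ hsm hα1 hβ1 hα hβ
    hind
  have h3 : O 3 (aeval x F₀ - MvPowerSeries.X 0 * MvPowerSeries.X 1) := by
    have e : aeval x F₀ - MvPowerSeries.X 0 * MvPowerSeries.X 1 = aeval x (F₀ - α * β) := by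
      rw [map_sub, map_mul, hxα, hxβ]
    rw [e]
    obtain ⟨p, hp, q, hq, hpq⟩ := Submodule.mem_sup.1 hF
    have hp0 : aeval x p = 0 := by
      have h1 : I ⊔ Ideal.span {ℓ - 1} ≤
          RingHom.ker (aeval x : MvPolynomial (Fin (N + 1)) ℂ →ₐ[ℂ] _) := by
        refine sup_le hxI ?_
        rw [Ideal.span_le, Set.singleton_subset_iff]
        show aeval x (ℓ - 1) = 0
        rw [map_sub, hxℓ, map_one, sub_self]
      exact h1 hp
    rw [← hpq, map_add, hp0, zero_add]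
    exact O_aeval_pow hx 3 hq
  obtain ⟨Ψ, hΨ, hΨO⟩ := morse h3
  have hmap : ∀ f : MvPolynomial (Fin (N + 1)) ℂ,
      aeval (fun j => Ψ (x j)) f = Ψ (aeval x f) := by
    intro f
    have h1 : (aeval (fun j => Ψ (x j)) : MvPolynomial (Fin (N + 1)) ℂ →ₐ[ℂ] PP ℂ) =
        (Ψ : PP ℂ →ₐ[ℂ] PP ℂ).comp (aeval x) := by
      refine MvPolynomial.algHom_ext fun j => ?_
      simp
    rw [h1]
    rfl
  have hcc : ∀ (n : ℕ) (g g' : PP ℂ), O n (g - g') → ∀ a b : ℕ, a + b < n → cc g a b = cc g' a b := by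
    intro n g g' h a b hab
    have h1 := h (xx a b) (by
      rw [xx, map_add, Finsupp.degree_single, Finsupp.degree_single]
      exact hab)
    rw [map_sub, sub_eq_zero] at h1
    exact h1
  have hX : ∀ (i : Fin 2) (a b : ℕ), cc (MvPowerSeries.X i : PP ℂ) a b =
      if xx a b = Finsupp.single i 1 then 1 else 0 := by
    intro i a b
    rw [cc, MvPowerSeries.coeff_X]
  have hx00 : xx 0 0 ≠ Finsupp.single 0 1 ∧ xx 0 0 ≠ Finsupp.single 1 1 := by
    constructor <;> intro h <;> have := congrArg Finsupp.degree h <;> simp [xx] at this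
  have hx10 : xx 1 0 = Finsupp.single 0 1 := by simp [xx]
  have hx01 : xx 0 1 = Finsupp.single 1 1 := by simp [xx]
  have hne : (Finsupp.single 1 1 : Fin 2 →₀ ℕ) ≠ Finsupp.single 0 1 := by
    intro h
    have := congrArg (fun f => f 0) h
    simp at this
  refine ⟨fun j => Ψ (x j), ⟨?_, ?_, ?_, α, β, hα1, hβ1, ?_, ?_, ?_, ?_, ?_, ?_⟩, ?_⟩
  · intro f hf
    rw [hmap, hxI f hf, map_zero]
  · rw [hmap, hxℓ, map_one]
  · rw [hmap, hΨ]
    rfl
  · rw [hmap, hxα, hcc 2 _ _ (hΨO 1 _ (O_X 0)) 0 0 (by omega), hX, if_neg hx00.1]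
  · rw [hmap, hxα, hcc 2 _ _ (hΨO 1 _ (O_X 0)) 1 0 (by omega), hX, if_pos hx10]
  · rw [hmap, hxα, hcc 2 _ _ (hΨO 1 _ (O_X 0)) 0 1 (by omega), hX, hx01, if_neg hne]
  · rw [hmap, hxβ, hcc 2 _ _ (hΨO 1 _ (O_X 1)) 0 0 (by omega), hX, if_neg hx00.2]
  · rw [hmap, hxβ, hcc 2 _ _ (hΨO 1 _ (O_X 1)) 1 0 (by omega), hX, hx10, if_neg hne.symm]
  · rw [hmap, hxβ, hcc 2 _ _ (hΨO 1 _ (O_X 1)) 0 1 (by omega), hX, if_pos hx01]
  · intro j
    have h1 : O 1 (Ψ (x j) - MvPowerSeries.C (w j)) := by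
      have h2 := (hΨO 1 _ (hx j)).mono (show 1 ≤ 2 by omega)
      have h4 : Ψ (x j - MvPowerSeries.C (w j)) = Ψ (x j) - MvPowerSeries.C (w j) := by
        rw [map_sub]
        congr 1
        exact Ψ.commutes (w j)
      rw [h4] at h2
      have h5 := h2.add (hx j)
      rwa [sub_add_cancel] at h5
    rw [hcc 1 _ _ h1 0 0 (by omega)]
    show MvPowerSeries.coeff (xx 0 0) (MvPowerSeries.C (w j)) = w j
    have : xx 0 0 = 0 := by simp [xx]
    rw [this, MvPowerSeries.coeff_zero_C]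

end main

end Pool.Agent.TH508.NS
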